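import Pool.Agent.P.MP_e9da60_ag.Main

namespace Pool.Agent.Results.MP_e9da60_ag.Unbounded

/-- If the completion of an analytically unramified Noetherian local ring of dimension `d > 0`
has a minimal prime of dimension `d - 1`, then the first normal Hilbert coefficient is unbounded
below on the primary ideals of the maximal ideal, even with the multiplicity fixed. -/
theorem result :
    ∀ (R : Type) [CommRing R] [IsNoetherianRing R] [IsLocalRing R],
      IsReduced (AdicCompletion (IsLocalRing.maximalIdeal R) R) →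
      ∀ (d : ℕ), ringKrullDim R = (d : WithBot ℕ∞) → 0 < d →
      ∀ P ∈ minimalPrimes (AdicCompletion (IsLocalRing.maximalIdeal R) R),
        ringKrullDim (AdicCompletion (IsLocalRing.maximalIdeal R) R ⧸ P) =
          ((d - 1 : ℕ) : WithBot ℕ∞) →
      ∃ E : ℚ, ∀ N : ℚ, ∃ I : Ideal R, I.radical = IsLocalRing.maximalIdeal R ∧
        ∀ (Ibar : ℕ → Ideal R),
          (∀ (n : ℕ) (x : R), x ∈ Ibar n ↔
            ∃ k : ℕ, 0 < k ∧ ∃ a : ℕ → R, (∀ j, a j ∈ (I ^ n) ^ j) ∧
              x ^ k + ∑ j ∈ Finset.range k, a (k - j) * x ^ j = 0) →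
        ∀ (e : ℕ → ℚ),
          (∀ᶠ n in Filter.atTop, ∃ m : ℕ,
            Module.length R (R ⧸ Ibar (n + 1)) = (m : ℕ∞) ∧
            (m : ℚ) = ∑ i ∈ Finset.range (d + 1),
              (-1 : ℚ) ^ i * e i * (((n + d - i).choose (d - i) : ℕ) : ℚ)) →
          e 0 = E ∧ e 1 ≤ N := by
  intro R _ _ _ hred d hd hd0 P hP hdim
  obtain ⟨E, hE⟩ := Pool.Agent.P.MP_e9da60_ag.main R hd hd0 hP hdim
  refine ⟨E, fun N => ?_⟩
  obtain ⟨I, hI, h⟩ := hE N
  refine ⟨I, hI, fun Ibar hIbar e he => h e ?_⟩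
  have : Ibar = fun n => Pool.Agent.P.MP_e9da60_ag.cl (I ^ n) :=
    funext fun n => Ideal.ext fun x => hIbar n x
  subst this
  exact he

end Pool.Agent.Results.MP_e9da60_ag.Unbounded
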